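import Mathlib

namespace Pool.Agent.H.MP_666db5_gt

open scoped ContDiff

noncomputable def extD {m : ℕ} (α : (Fin m → ℝ) → (Fin m → ℝ) →L[ℝ] ℝ) (x u v : Fin m → ℝ) : ℝ :=
  fderiv ℝ α x u v - fderiv ℝ α x v u

structure TorusContact {m q : ℕ} (α : Fin q → (Fin m → ℝ) → (Fin m → ℝ) →L[ℝ] ℝ)
    (R ξ : (Fin m → ℝ) → Submodule ℝ (Fin m → ℝ)) : Prop where
  smooth : ∀ i, ContDiff ℝ ∞ (α i)
  periodic : ∀ i x (k : Fin m → ℤ), α i (x + fun j => (k j : ℝ)) = α i x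
  indep : ∀ x, LinearIndependent ℝ fun i => α i x
  compl : ∀ x, IsCompl (R x) (ξ x)
  xi : ∀ x v, v ∈ ξ x ↔ ∀ i, α i x v = 0
  nondeg : ∀ i x, ∀ u ∈ ξ x, (∀ v ∈ ξ x, extD (α i) x u v = 0) → u = 0
  ker : ∀ i x u, u ∈ R x ↔ ∀ v, extD (α i) x u v = 0

structure ReebAction {m q : ℕ} (α : Fin q → (Fin m → ℝ) → (Fin m → ℝ) →L[ℝ] ℝ)
    (R : (Fin m → ℝ) → Submodule ℝ (Fin m → ℝ)) (X : Fin q → (Fin m → ℝ) → Fin m → ℝ)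
    (F : (Fin q → ℝ) → (Fin m → ℝ) → Fin m → ℝ) : Prop where
  smooth : ∀ i, ContDiff ℝ ∞ (X i)
  mem : ∀ i x, X i x ∈ R x
  dual : ∀ i j x, α j x (X i x) = if i = j then 1 else 0
  zero : ∀ x, F 0 x = x
  add : ∀ s t x, F (s + t) x = F s (F t x)
  flow : ∀ i x (τ : ℝ), HasDerivAt (fun r : ℝ => F (Pi.single i r) x)
    (X i (F (Pi.single i τ) x)) τ

end Pool.Agent.H.MP_666db5_gt
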