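import Pool.Agent.H.MP_666db5_gt.Defs

namespace Pool.Agent.H.MP_666db5_gt

open scoped ContDiff
open Real Set

abbrev V := Fin 4 → ℝ

noncomputable def pr (i : Fin 4) : V →L[ℝ] ℝ := ContinuousLinearMap.proj i

@[simp] theorem pr_apply (i : Fin 4) (v : V) : pr i v = v i := rfl

noncomputable def A : V →L[ℝ] ℝ := pr 0 - √2 • pr 3
noncomputable def B : V →L[ℝ] ℝ := pr 1 - √3 • pr 3
noncomputable def cc (x : V) : ℝ := cos (2 * π * x 2)
noncomputable def ss (x : V) : ℝ := sin (2 * π * x 2)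

theorem cs (x : V) : cc x ^ 2 + ss x ^ 2 = 1 := cos_sq_add_sin_sq _

noncomputable def al (i : Fin 2) (x : V) : V →L[ℝ] ℝ :=
  cc x • A + ss x • B + ((i : ℕ) : ℝ) • pr 3

theorem al_apply (i : Fin 2) (x v : V) :
    al i x v = cc x * (v 0 - √2 * v 3) + ss x * (v 1 - √3 * v 3) + (i : ℕ) * v 3 := by
  simp [al, A, B]

theorem hcc (x : V) : HasFDerivAt cc ((-(2 * π) * ss x) • pr 2) x := by
  have h1 : HasFDerivAt (fun y : V => 2 * π * y 2) ((2 * π) • pr 2) x :=
    ((pr 2).hasFDerivAt (x := x)).const_mul (2 * π)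
  have := (hasDerivAt_cos (2 * π * x 2)).comp_hasFDerivAt (f := fun y : V => 2 * π * y 2) x h1
  refine this.congr_fderiv ?_
  ext v
  simp [ss]
  ring

theorem hss (x : V) : HasFDerivAt ss (((2 * π) * cc x) • pr 2) x := by
  have h1 : HasFDerivAt (fun y : V => 2 * π * y 2) ((2 * π) • pr 2) x :=
    ((pr 2).hasFDerivAt (x := x)).const_mul (2 * π)
  have := (hasDerivAt_sin (2 * π * x 2)).comp_hasFDerivAt (f := fun y : V => 2 * π * y 2) x h1
  refine this.congr_fderiv ?_
  ext v
  simp [cc]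
  ring

theorem ext_al (i : Fin 2) (x u v : V) : extD (al i) x u v =
    2 * π * (u 2 * (cc x * (v 1 - √3 * v 3) - ss x * (v 0 - √2 * v 3))
      - v 2 * (cc x * (u 1 - √3 * u 3) - ss x * (u 0 - √2 * u 3))) := by
  have h := (((hcc x).smul_const A).add ((hss x).smul_const B)).add_const (((i : ℕ) : ℝ) • pr 3)
  have e : fderiv ℝ (al i) x = _ := h.fderiv
  unfold extD
  rw [e]
  simp [A, B]
  ring

theorem cc_smooth : ContDiff ℝ ∞ cc := by
  unfold cc
  fun_prop

theorem ss_smooth : ContDiff ℝ ∞ ss := by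
  unfold ss
  fun_prop

def RR (x : V) : Submodule ℝ V where
  carrier := {u | u 2 = 0 ∧ cc x * (u 1 - √3 * u 3) - ss x * (u 0 - √2 * u 3) = 0}
  add_mem' := by
    rintro a b ⟨a1, a2⟩ ⟨b1, b2⟩
    refine ⟨by simp [a1, b1], ?_⟩
    simp only [Pi.add_apply]
    linarith
  zero_mem' := by simp
  smul_mem' := by
    rintro c a ⟨a1, a2⟩
    refine ⟨by simp [a1], ?_⟩
    simp only [Pi.smul_apply, smul_eq_mul]
    linear_combination c * a2

def XI (x : V) : Submodule ℝ V where
  carrier := {u | u 3 = 0 ∧ cc x * u 0 + ss x * u 1 = 0}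
  add_mem' := by
    rintro a b ⟨a1, a2⟩ ⟨b1, b2⟩
    refine ⟨by simp [a1, b1], ?_⟩
    simp only [Pi.add_apply]
    linarith
  zero_mem' := by simp
  smul_mem' := by
    rintro c a ⟨a1, a2⟩
    refine ⟨by simp [a1], ?_⟩
    simp only [Pi.smul_apply, smul_eq_mul]
    linear_combination c * a2

theorem mem_RR {x u : V} : u ∈ RR x ↔
    u 2 = 0 ∧ cc x * (u 1 - √3 * u 3) - ss x * (u 0 - √2 * u 3) = 0 := Iff.rfl

theorem mem_XI {x u : V} : u ∈ XI x ↔ u 3 = 0 ∧ cc x * u 0 + ss x * u 1 = 0 := Iff.rfl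

theorem cc_per (x : V) (k : Fin 4 → ℤ) : cc (x + fun j => (k j : ℝ)) = cc x := by
  unfold cc
  rw [← cos_add_int_mul_two_pi (2 * π * x 2) (k 2)]
  congr 1
  simp only [Pi.add_apply]
  ring

theorem ss_per (x : V) (k : Fin 4 → ℤ) : ss (x + fun j => (k j : ℝ)) = ss x := by
  unfold ss
  rw [← sin_add_int_mul_two_pi (2 * π * x 2) (k 2)]
  congr 1
  simp only [Pi.add_apply]
  ring

noncomputable def XX (i : Fin 2) (x : V) : V :=
  ![![cc x - √2, ss x - √3, 0, -1], ![√2, √3, 0, 1]] i

theorem dual (i j : Fin 2) (x : V) : al j x (XX i x) = if i = j then 1 else 0 := by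
  have := cs x
  fin_cases i <;> fin_cases j <;> simp [al_apply, XX] <;> nlinarith

theorem contact : TorusContact al RR XI where
  smooth := fun i =>
    ((cc_smooth.smul contDiff_const).add (ss_smooth.smul contDiff_const)).add contDiff_const
  periodic := by
    intro i x k
    simp only [al, cc_per, ss_per]
  indep := by
    intro x
    rw [Fintype.linearIndependent_iff]
    intro g hg i
    have := congrArg (fun f : V →L[ℝ] ℝ => f (XX i x)) hg
    fin_cases i <;> simpa [dual] using this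
  compl := by
    intro x
    have h := cs x
    constructor
    · rw [Submodule.disjoint_def]
      intro u hu hv
      obtain ⟨a1, a2⟩ := mem_RR.1 hu
      obtain ⟨b1, b2⟩ := mem_XI.1 hv
      rw [b1] at a2
      have e0 : u 0 = 0 := by linear_combination -(u 0) * h - ss x * a2 + cc x * b2
      have e1 : u 1 = 0 := by linear_combination -(u 1) * h + cc x * a2 + ss x * b2
      ext j
      fin_cases j <;> simp [e0, e1, a1, b1]
    · rw [codisjoint_iff, eq_top_iff]
      intro u _
      let p := cc x * (u 1 - √3 * u 3) - ss x * (u 0 - √2 * u 3)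
      let w : V := ![-(ss x) * p, cc x * p, u 2, 0]
      have : u = (u - w) + w := by simp
      rw [this]
      refine Submodule.add_mem_sup (mem_RR.2 ⟨by simp [w], ?_⟩) (mem_XI.2 ⟨by simp [w], ?_⟩)
      · simp [w]
        simp only [p]
        linear_combination -(cc x * (u 1 - √3 * u 3) - ss x * (u 0 - √2 * u 3)) * h
      · simp [w]
        ring
  xi := by
    intro x v
    rw [mem_XI, Fin.forall_fin_two, al_apply, al_apply]
    simp only [Fin.val_zero, Fin.val_one, Nat.cast_zero, Nat.cast_one]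
    constructor
    · rintro ⟨a, b⟩
      rw [a]
      constructor <;> linarith
    · rintro ⟨a, b⟩
      have : v 3 = 0 := by linarith
      rw [this] at a
      exact ⟨this, by linarith⟩
  nondeg := by
    intro i x u hu hv
    have h := cs x
    obtain ⟨b1, b2⟩ := mem_XI.1 hu
    have h1 := hv ![0, 0, 1, 0] (mem_XI.2 (by simp))
    have h2 := hv ![-(ss x), cc x, 0, 0] (mem_XI.2 ⟨by simp, by simp; ring⟩)
    rw [ext_al] at h1 h2
    have hp : 2 * π ≠ 0 := by positivity
    have h1' := (mul_eq_zero.1 h1).resolve_left hp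
    have h2' := (mul_eq_zero.1 h2).resolve_left hp
    simp [b1] at h1'
    have e2 : u 2 = 0 := by
      simp only [Matrix.cons_val] at h2'
      linear_combination h2' - u 2 * h
    have e0 : u 0 = 0 := by linear_combination -(u 0) * h + ss x * h1' + cc x * b2
    have e1 : u 1 = 0 := by linear_combination -(u 1) * h - cc x * h1' + ss x * b2
    ext j
    fin_cases j <;> simp [e0, e1, e2, b1]
  ker := by
    intro i x u
    have h := cs x
    rw [mem_RR]
    have hp : 2 * π ≠ 0 := by positivity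
    constructor
    · rintro ⟨a, b⟩ v
      rw [ext_al, a, b]
      ring
    · intro hv
      have h1 := hv ![0, 0, 1, 0]
      have h2 := hv ![-(ss x), cc x, 0, 0]
      rw [ext_al] at h1 h2
      have h1' := (mul_eq_zero.1 h1).resolve_left hp
      have h2' := (mul_eq_zero.1 h2).resolve_left hp
      simp only [Matrix.cons_val] at h1' h2'
      constructor
      · linear_combination h2' - u 2 * h
      · linear_combination -h1'

noncomputable def FF (t : Fin 2 → ℝ) (x : V) : V := x + t 0 • XX 0 x + t 1 • XX 1 x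

theorem FF2 (t : Fin 2 → ℝ) (x : V) : FF t x 2 = x 2 := by
  simp only [FF, XX, Pi.add_apply, Pi.smul_apply, Matrix.cons_val, smul_zero, add_zero]

theorem XX_FF (i : Fin 2) (t : Fin 2 → ℝ) (x : V) : XX i (FF t x) = XX i x := by
  simp only [XX, cc, ss, FF2]

theorem reeb : ReebAction al RR XX FF where
  smooth := by
    intro i
    have h1 := cc_smooth
    have h2 := ss_smooth
    refine contDiff_pi.2 fun j => ?_
    fin_cases i <;> fin_cases j <;> simp [XX] <;> fun_prop
  mem := by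
    intro i x
    fin_cases i <;> simp [mem_RR, XX]
    ring
  dual := dual
  zero := by intro x; simp [FF]
  add := by
    intro s t x
    have : FF s (FF t x) = FF t x + s 0 • XX 0 (FF t x) + s 1 • XX 1 (FF t x) := rfl
    rw [this, XX_FF, XX_FF]
    simp only [FF, Pi.add_apply, add_smul]
    abel
  flow := by
    intro i x τ
    rw [XX_FF]
    have : (fun r : ℝ => FF (Pi.single i r) x) = fun r => x + r • XX i x := by
      funext r
      fin_cases i <;> simp [FF]
    rw [this]
    simpa using ((hasDerivAt_id τ).smul_const (XX i x)).const_add x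

theorem indep23 (p q r : ℤ) (h : (p : ℝ) * √2 + q * √3 = r) : p = 0 ∧ q = 0 := by
  have s2 : √2 ^ 2 = (2 : ℝ) := sq_sqrt (by norm_num)
  have s3 : √3 ^ 2 = (3 : ℝ) := sq_sqrt (by norm_num)
  have i2 : Irrational √2 := irrational_sqrt_two
  have i3 : Irrational √3 := by
    simpa using (Nat.Prime.irrational_sqrt (p := 3) (by norm_num))
  have i6 : Irrational √6 := by
    have : Irrational √((6 : ℕ) : ℝ) := irrational_sqrt_natCast_iff.2 (by decide +kernel)
    simpa using this
  have m6 : √2 * √3 = √6 := by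
    rw [← sqrt_mul (by norm_num)]
    norm_num
  have hpq : p * q = 0 := by
    by_contra hne
    have : Irrational (((2 * (p * q) : ℤ) : ℝ) * √6) := i6.intCast_mul (by omega)
    apply this.ne_int (r ^ 2 - 2 * p ^ 2 - 3 * q ^ 2)
    push_cast
    rw [← m6, ← h]
    linear_combination (-(p : ℝ) ^ 2) * s2 - (q : ℝ) ^ 2 * s3
  have hp : q = 0 → p = 0 := by
    intro hq
    by_contra hne
    apply (i2.intCast_mul hne).ne_int r
    rw [← h, hq]
    simp
  have hq : p = 0 → q = 0 := by
    intro hp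
    by_contra hne
    apply (i3.intCast_mul hne).ne_int r
    rw [← h, hp]
    simp
  rcases mul_eq_zero.1 hpq with h0 | h0
  · exact ⟨h0, hq h0⟩
  · exact ⟨hp h0, h0⟩

theorem FF_eq {t : Fin 2 → ℝ} {x w : V} (h : FF t x = x + w) :
    t 0 * cc x = w 0 - √2 * w 3 ∧ t 0 * ss x = w 1 - √3 * w 3 ∧ t 1 - t 0 = w 3 := by
  have h0 := congrFun h 0
  have h1 := congrFun h 1
  have h3 := congrFun h 3
  simp only [FF, XX, Pi.add_apply, Pi.smul_apply, Matrix.cons_val, smul_eq_mul] at h0 h1 h3
  refine ⟨?_, ?_, by linarith⟩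
  · linear_combination h0 - √2 * h3
  · linear_combination h1 - √3 * h3

theorem det_zero {x : V} {t t' : Fin 2 → ℝ} {k k' : Fin 4 → ℤ}
    (h : FF t x = x + fun j => (k j : ℝ)) (h' : FF t' x = x + fun j => (k' j : ℝ)) :
    t 0 * t' 1 - t 1 * t' 0 = 0 := by
  obtain ⟨a0, a1, a3⟩ := FF_eq h
  obtain ⟨b0, b1, b3⟩ := FF_eq h'
  have e := cs x
  have key := indep23 (k 1 * k' 3 - k 3 * k' 1) (k 3 * k' 0 - k 0 * k' 3)
    (-(k 0 * k' 1 - k 1 * k' 0)) (by
      push_cast
      linear_combination (k' 1 - √3 * k' 3) * (-a0) + (k' 0 - √2 * k' 3) * a1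
        - t 0 * cc x * b1 + t 0 * ss x * b0)
  have k1 : (k 1 : ℝ) * k' 3 - k 3 * k' 1 = 0 := by exact_mod_cast key.1
  have k2 : (k 3 : ℝ) * k' 0 - k 0 * k' 3 = 0 := by exact_mod_cast key.2
  linear_combination t 0 * b3 - t' 0 * a3 - (t 0 * k' 3 - t' 0 * k 3) * e
    + cc x * k' 3 * a0 + ss x * k' 3 * a1 - cc x * k 3 * b0 - ss x * k 3 * b1
    - cc x * k2 + ss x * k1

theorem span_ne (x : V) :
    Submodule.span ℝ {t : Fin 2 → ℝ | ∃ k : Fin 4 → ℤ, FF t x = x + fun j => (k j : ℝ)} ≠ ⊤ := by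
  intro htop
  have ex : ∃ a b : ℝ, (a ≠ 0 ∨ b ≠ 0) ∧ ∀ t ∈ {t : Fin 2 → ℝ | ∃ k : Fin 4 → ℤ,
      FF t x = x + fun j => (k j : ℝ)}, a * t 1 - b * t 0 = 0 := by
    by_cases h0 : ∀ t ∈ {t : Fin 2 → ℝ | ∃ k : Fin 4 → ℤ,
      FF t x = x + fun j => (k j : ℝ)}, t 0 = 0 ∧ t 1 = 0
    · exact ⟨1, 0, Or.inl one_ne_zero, fun t ht => by simp [(h0 t ht).2]⟩
    · push Not at h0
      obtain ⟨t, ⟨k, hk⟩, ht⟩ := h0
      refine ⟨t 0, t 1, by tauto, ?_⟩
      rintro t' ⟨k', hk'⟩
      exact det_zero hk hk'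
  obtain ⟨a, b, hab, h⟩ := ex
  let φ : (Fin 2 → ℝ) →ₗ[ℝ] ℝ := a • LinearMap.proj 1 - b • LinearMap.proj 0
  have hle : Submodule.span ℝ {t : Fin 2 → ℝ | ∃ k : Fin 4 → ℤ,
      FF t x = x + fun j => (k j : ℝ)} ≤ LinearMap.ker φ :=
    Submodule.span_le.2 fun t ht => by simpa [φ] using h t ht
  rw [htop] at hle
  have h1 : φ ![0, 1] = 0 := hle Submodule.mem_top
  have h2 : φ ![1, 0] = 0 := hle Submodule.mem_top
  simp [φ] at h1 h2
  tauto

noncomputable def NN (x : V) : (Fin 4 → ℤ) →+ ℝ where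
  toFun k := cc x * (k 1 - √3 * k 3) - ss x * (k 0 - √2 * k 3)
  map_zero' := by simp
  map_add' a b := by
    simp only [Pi.add_apply]
    push_cast
    ring

theorem NN_apply (x : V) (k : Fin 4 → ℤ) :
    NN x k = cc x * (k 1 - √3 * k 3) - ss x * (k 0 - √2 * k 3) := rfl

theorem not_closed (x : V) : ¬ IsClosed ((NN x).range : Set ℝ) := by
  intro hc
  rcases (NN x).range.dense_or_cyclic with hd | ⟨a, ha⟩
  · have hu : ((NN x).range : Set ℝ) = univ := by
      rw [← hc.closure_eq, hd.closure_eq]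
    have : ((NN x).range : Set ℝ).Countable := countable_range _
    rw [hu] at this
    exact not_countable_univ this
  · have get : ∀ k, ∃ n : ℤ, (n : ℝ) * a = NN x k := by
      intro k
      have : NN x k ∈ AddSubgroup.closure {a} := ha ▸ ⟨k, rfl⟩
      obtain ⟨n, hn⟩ := AddSubgroup.mem_closure_singleton.1 this
      exact ⟨n, by simpa using hn⟩
    obtain ⟨p, hp⟩ := get ![1, 0, 0, 0]
    obtain ⟨q, hq⟩ := get ![0, 1, 0, 0]
    obtain ⟨r, hr⟩ := get ![0, 0, 0, 1]
    simp only [NN_apply, Matrix.cons_val, Int.cast_zero, Int.cast_one] at hp hq hr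
    have e := cs x
    have ha0 : a ≠ 0 := by
      rintro rfl
      nlinarith
    have := indep23 p q (-r) (by
      push_cast
      apply mul_left_cancel₀ ha0
      linear_combination √2 * hp + √3 * hq + hr)
    rw [this.1] at hp
    rw [this.2] at hq
    push_cast at hp hq
    nlinarith

theorem not_compact (x : V) :
    ¬ IsCompact (range fun t : Fin 2 → ℝ => fun j => ((FF t x j : ℝ) : UnitAddCircle)) := by
  intro hc
  let γ : ℝ → Fin 4 → UnitAddCircle := fun r j =>
    ((x j + r * (![-(ss x), cc x, 0, 0] : V) j : ℝ) : UnitAddCircle)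
  have hγ : Continuous γ := continuous_pi fun j =>
    (AddCircle.continuous_mk' 1).comp (by fun_prop)
  have hcl := hc.isClosed.preimage hγ
  apply not_closed x
  convert hcl using 1
  have e := cs x
  ext r
  simp only [AddMonoidHom.coe_range, mem_range, mem_preimage]
  constructor
  · rintro ⟨k, rfl⟩
    let t0 : ℝ := cc x * (k 0 - √2 * k 3) + ss x * (k 1 - √3 * k 3)
    refine ⟨![-t0, -t0 - k 3], ?_⟩
    funext j
    refine (QuotientAddGroup.eq_iff_sub_mem).2 ?_
    refine ⟨-(if j = 2 then 0 else k j), ?_⟩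
    fin_cases j
    · simp [FF, XX, NN_apply, t0, Matrix.vecHead, Matrix.vecTail]
      linear_combination ((k 0 : ℝ) - √2 * k 3) * e
    · simp [FF, XX, NN_apply, t0, Matrix.vecHead, Matrix.vecTail]
      linear_combination ((k 1 : ℝ) - √3 * k 3) * e
    · simp [FF, XX, Matrix.vecHead, Matrix.vecTail]
    · simp [FF, XX, Matrix.vecHead, Matrix.vecTail]
      ring
  · rintro ⟨t, ht⟩
    have : ∀ j, ∃ n : ℤ, (n : ℝ) = x j + r * (![-(ss x), cc x, 0, 0] : V) j - FF t x j := by
      intro j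
      obtain ⟨n, hn⟩ := (QuotientAddGroup.eq_iff_sub_mem).1 (congrFun ht j).symm
      exact ⟨n, by simpa using hn⟩
    choose k hk using this
    refine ⟨k, ?_⟩
    have hF : FF t x = x + fun j => r * (![-(ss x), cc x, 0, 0] : V) j - k j := by
      funext j
      simp only [Pi.add_apply]
      linarith [hk j]
    obtain ⟨a0, a1, -⟩ := FF_eq hF
    simp only [Matrix.cons_val] at a0 a1
    rw [NN_apply]
    linear_combination cc x * a1 - ss x * a0 + r * e

end Pool.Agent.H.MP_666db5_gt
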